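import Pool.Agent.RHB.Main

set_option autoImplicit false

namespace Pool.Agent.Results.MP_4dc6a8_ag.NoSolution

open Pool.Agent.RHB

/-- The Riemann-Hilbert problem (RH) for the blow-up of `P^3` along an elliptic curve of degree
`d ≥ 3`, `σ = 0`, has no solution for suitable `ρ` and `φ`, with eigenvalues at distance `≥ R`. -/
theorem result (d : ℕ) (hd : 3 ≤ d) :
    (∃ L, IsFund L) ∧ ∀ L, IsFund L → ∀ R : ℝ, ∃ (ρ : Fin 2 → ℂ) (φ : ℝ), Admissible ρ φ R ∧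
      ∀ ε : ℝ, 0 < ε → ε < Real.pi / 2 → ¬∃ Yinf Yp Ym, RHSol d L ρ φ ε Yinf Yp Ym :=
  TOP_ d hd

end Pool.Agent.Results.MP_4dc6a8_ag.NoSolution
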